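import Pool.Agent.K3h16.SF.Stm2

/-!
# ALG2: a monic equation for a sum modulo a nil ideal (helper79 for helper16, MP_6e5bed_ag)
-/

set_option autoImplicit false

open Pool.Agent.K3h16.SF Polynomial

namespace Pool.Agent.K3h79.SF

universe v

theorem t_ALG2 : S_ALG2.{v} := by
  intro R _ _ N hadd hr hl hnil a b P Q hP hXP haP hQ hXQ hbQ hab hba
  have h0 : N 0 := by simpa using hr (a * b) 0 hab
  have hsm : ∀ (c : ℚ) (x : R), N x → N (c • x) := fun c x hx => by
    rw [Algebra.smul_def]
    exact hl x _ hx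
  -- powers
  have c1 : ∀ n : ℕ, N ((a + b) ^ (n + 1) - a ^ (n + 1) - b ^ (n + 1)) := by
    intro n
    induction n with
    | zero =>
      have : (a + b) ^ (0 + 1) - a ^ (0 + 1) - b ^ (0 + 1) = 0 := by
        simp only [zero_add, pow_one]
        abel
      rw [this]
      exact h0
    | succ n ih =>
      have e : (a + b) ^ (n + 1 + 1) - a ^ (n + 1 + 1) - b ^ (n + 1 + 1) =
          (a + b) * ((a + b) ^ (n + 1) - a ^ (n + 1) - b ^ (n + 1)) + a * b * b ^ n +
            b * a * a ^ n := by
        rw [mul_assoc a b, mul_assoc b a, ← pow_succ' b n, ← pow_succ' a n,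
          pow_succ' (a + b) (n + 1), pow_succ' a (n + 1), pow_succ' b (n + 1)]
        noncomm_ring
      rw [e]
      exact hadd _ _ (hadd _ _ (hl _ _ ih) (hr _ _ hab)) (hr _ _ hba)
  -- polynomials without constant term
  have c2 : ∀ P1 : ℚ[X], N (aeval (a + b) (X * P1) - aeval a (X * P1) - aeval b (X * P1)) := by
    intro P1
    induction P1 using Polynomial.induction_on' with
    | add p q hp hq =>
      have e : aeval (a + b) (X * (p + q)) - aeval a (X * (p + q)) - aeval b (X * (p + q)) =
          (aeval (a + b) (X * p) - aeval a (X * p) - aeval b (X * p)) +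
          (aeval (a + b) (X * q) - aeval a (X * q) - aeval b (X * q)) := by
        rw [mul_add, map_add, map_add, map_add]
        abel
      rw [e]
      exact hadd _ _ hp hq
    | monomial n c =>
      have e : (X * monomial n c : ℚ[X]) = c • X ^ (n + 1) := by
        rw [X_mul_monomial, ← smul_X_eq_monomial]
      rw [e, map_smul, map_smul, map_smul, map_pow, map_pow, map_pow, aeval_X, aeval_X, aeval_X,
        ← smul_sub, ← smul_sub]
      exact hsm _ _ (c1 n)
  obtain ⟨P1, rfl⟩ := hXP
  obtain ⟨Q1, rfl⟩ := hXQ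
  have n1 := c2 P1
  have n2 := c2 Q1
  rw [haP, sub_zero] at n1
  rw [hbQ, sub_zero] at n2
  have hy : N (aeval (a + b) (X * P1 * (X * Q1))) := by
    have e : aeval (a + b) (X * P1 * (X * Q1)) =
        (aeval (a + b) (X * P1) - aeval b (X * P1)) * aeval (a + b) (X * Q1) +
        aeval b (X * P1) * (aeval (a + b) (X * Q1) - aeval a (X * Q1)) +
        aeval b P1 * (b * a * aeval a Q1) := by
      have e1 : aeval b P1 * (b * a * aeval a Q1) = aeval b (X * P1) * aeval a (X * Q1) := by
        rw [show (X * P1 : ℚ[X]) = P1 * X by ring, map_mul, map_mul, aeval_X, aeval_X]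
        noncomm_ring
      rw [e1, map_mul]
      noncomm_ring
    rw [e]
    exact hadd _ _ (hadd _ _ (hr _ _ n1) (hl _ _ n2)) (hl _ _ (hr _ _ hba))
  obtain ⟨k, hk⟩ := hnil _ hy
  refine ⟨(X * P1 * (X * Q1)) ^ (k + 1), (hP.mul hQ).pow _, ?_, by rw [map_pow, hk]⟩
  exact dvd_pow (Dvd.dvd.mul_right (dvd_mul_right _ _) _) (by omega)

end Pool.Agent.K3h79.SF

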