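import Pool.Agent.K3h16.SF.Stm

/-!
# COMP: powers of composites (helper79 for helper16, MP_6e5bed_ag)
-/

set_option autoImplicit false

open CategoryTheory Limits MonoidalCategory
open Pool.Agent.K3h16.SF Pool.Agent.Y112.KD Pool.Agent.R905

namespace Pool.Agent.K3h79.SF

universe v u

theorem t_COMP : S_COMP.{v, u} := by
  intro C _ _ _ _ _ _ _ η hη M f g n hf
  constructor
  · intro Z h hh
    have h1 : asym η M n ≫ h = h := asym_comp hη h hh
    have h2 : tpm f n ≫ (asym η M n ≫ tpm g n ≫ h) = 0 := by
      apply hf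
      intro s hs
      rw [← Category.assoc, (swap_asym hη M hs).1, Linear.smul_comp]
    have h3 : tpm g n ≫ h = asym η M n ≫ tpm g n ≫ h := by
      conv_lhs => rw [← h1]
      rw [← Category.assoc, asym_nat, Category.assoc]
    rw [← tpm_comp, Category.assoc, h3, h2]
  · intro Z h hh
    rw [← tpm_comp, Category.assoc, hf Z h hh, comp_zero]

end Pool.Agent.K3h79.SF

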