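import Pool.Agent.K3h16.SF.Stm

/-!
# KIDEM: an idempotent with two vanishing powers is zero (helper79 for helper16, MP_6e5bed_ag)
-/

set_option autoImplicit false

open Pool.Agent.K3h16.SF
open Pool.Agent.TH829.Kim (K K_succ)

namespace Pool.Agent.K3h79.SF

universe v u

theorem K_const {R : Type*} [Ring R] [Algebra ℚ R] (t : R →ₗ[ℚ] ℚ) (η : ℚ) {e : R} (he : e * e = e)
    (n : ℕ) : K t η n (fun _ => e) = (∏ j ∈ Finset.range n, (t e + ((j : ℚ) + 1) * η)) • e := by
  induction n with
  | zero => simp [K]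
  | succ n ih =>
    have h1 : ∀ i : Fin (n + 1), Function.update (fun _ : Fin (n + 1) => e) i (e * e) =
        fun _ => e := by
      intro i
      rw [he]
      exact Function.update_eq_self i _
    rw [K_succ]
    simp only [h1, ih]
    rw [Finset.sum_const, Finset.card_univ, Fintype.card_fin, ← Nat.cast_smul_eq_nsmul ℚ,
      smul_smul, smul_smul, smul_smul, ← add_smul, Finset.prod_range_succ]
    congr 1
    push_cast
    ring

theorem t_KIDEM : S_KIDEM.{v} := by
  intro R _ _ t n m e he h1 h2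
  by_contra h0
  rw [K_const t _ he] at h1 h2
  have h3 := (smul_eq_zero.1 h1).resolve_right h0
  have h4 := (smul_eq_zero.1 h2).resolve_right h0
  obtain ⟨i, -, hi⟩ := Finset.prod_eq_zero_iff.1 h3
  obtain ⟨j, -, hj⟩ := Finset.prod_eq_zero_iff.1 h4
  have i0 : (0 : ℚ) ≤ i := Nat.cast_nonneg i
  have j0 : (0 : ℚ) ≤ j := Nat.cast_nonneg j
  linarith

end Pool.Agent.K3h79.SF

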