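import Pool.Agent.K3h16.SF.Stm

/-!
# KALG: a monic equation from the trace relation (helper79 for helper16, MP_6e5bed_ag)
-/

set_option autoImplicit false

open Pool.Agent.K3h16.SF Polynomial
open Pool.Agent.TH829.Kim (K K_succ update_pow sum_update update_pos)

namespace Pool.Agent.K3h79.SF

universe v u

theorem K_poly {R : Type*} [Ring R] [Algebra ℚ R] (t : R →ₗ[ℚ] ℚ) (η : ℚ) (f : R) (n : ℕ) :
    ∀ a : Fin (n + 1) → ℕ, (∀ i, 1 ≤ a i) → ∃ Q : ℚ[X], X ∣ Q ∧ Q.degree < ((∑ i, a i : ℕ) : WithBot ℕ) ∧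
      K t η n (fun i => f ^ a i) = (η ^ n * n.factorial) • f ^ (∑ i, a i) + aeval f Q := by
  induction n with
  | zero =>
    intro a _
    refine ⟨0, dvd_zero _, ?_, by simp [K]⟩
    rw [degree_zero]
    exact WithBot.bot_lt_coe _
  | succ n ih =>
    intro a ha
    have hsum : ∑ i, a i = a 0 + ∑ i : Fin (n + 1), a i.succ := Fin.sum_univ_succ a
    have h0 := ha 0
    obtain ⟨Q0, x0, d0, e0⟩ := ih (fun i => a i.succ) (fun i => ha _)
    choose Q hx hd he using fun i : Fin (n + 1) =>
      ih (Function.update (fun j : Fin (n + 1) => a j.succ) i (a 0 + a i.succ)) (update_pos ha i)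
    have hs1 : 1 ≤ ∑ i : Fin (n + 1), a i.succ :=
      (ha _).trans (Finset.single_le_sum (f := fun i : Fin (n + 1) => a i.succ)
        (fun _ _ => Nat.zero_le _) (Finset.mem_univ 0))
    refine ⟨t (f ^ a 0) • ((η ^ n * (n.factorial : ℚ)) • X ^ (∑ i : Fin (n + 1), a i.succ) + Q0) +
      η • ∑ i, Q i, ?_, ?_, ?_⟩
    · refine dvd_add (dvd_smul_of_dvd _ (dvd_add (dvd_smul_of_dvd _ (dvd_pow_self _ (by omega))) x0))
        (dvd_smul_of_dvd _ (Finset.dvd_sum fun i _ => hx i))
    · have lt1 : ((∑ i : Fin (n + 1), a i.succ : ℕ) : WithBot ℕ) < ((∑ i, a i : ℕ) : WithBot ℕ) := by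
        rw [hsum]
        exact_mod_cast (by omega : ∑ i : Fin (n + 1), a i.succ < a 0 + ∑ i : Fin (n + 1), a i.succ)
      refine (degree_add_le _ _).trans_lt (max_lt ?_ ?_)
      · refine (degree_smul_le _ _).trans_lt ((degree_add_le _ _).trans_lt (max_lt ?_ (d0.trans lt1)))
        exact ((degree_smul_le _ _).trans (degree_X_pow_le _)).trans_lt lt1
      · refine (degree_smul_le _ _).trans_lt ?_
        refine (degree_sum_le _ _).trans_lt ?_
        rw [Finset.sup_lt_iff (WithBot.bot_lt_coe _)]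
        intro i _
        have := hd i
        rwa [sum_update] at this
    · rw [K_succ]
      have h1 : ∀ i ∈ (Finset.univ : Finset (Fin (n + 1))), K t η n (Function.update
          (fun j : Fin (n + 1) => f ^ a j.succ) i (f ^ a 0 * f ^ a i.succ)) =
          (η ^ n * n.factorial) • f ^ (∑ i, a i) + aeval f (Q i) := by
        intro i _
        rw [update_pow, he, sum_update]
      rw [Finset.sum_congr rfl h1, Finset.sum_add_distrib, Finset.sum_const, Finset.card_univ,
        Fintype.card_fin, ← Nat.cast_smul_eq_nsmul ℚ, e0]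
      simp only [map_add, map_smul, map_pow, aeval_X, map_sum]
      rw [Nat.factorial_succ, pow_succ]
      push_cast
      module

theorem t_KALG : S_KALG.{v} := by
  intro R _ _ t η hη n f hK
  obtain ⟨Q, hx, hd, he⟩ := K_poly t η f n (fun _ => 1) (fun _ => le_rfl)
  have hη0 : η ≠ 0 := by
    rintro rfl
    norm_num at hη
  have hc : (η ^ n * (n.factorial : ℚ)) ≠ 0 :=
    mul_ne_zero (pow_ne_zero _ hη0) (by exact_mod_cast n.factorial_ne_zero)
  have hs : ∑ _i : Fin (n + 1), 1 = n + 1 := by simp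
  rw [hs] at hd he
  simp only [pow_one] at he
  rw [hK] at he
  set c : ℚ := η ^ n * (n.factorial : ℚ) with hcdef
  refine ⟨X ^ (n + 1) + c⁻¹ • Q, monic_X_pow_add ((degree_smul_le _ _).trans_lt hd),
    dvd_add (dvd_pow_self _ (by omega)) (dvd_smul_of_dvd _ hx), ?_⟩
  simp only [map_add, map_smul, map_pow, aeval_X]
  have h2 : c⁻¹ • (c • f ^ (n + 1) + aeval f Q) = 0 := by rw [← he, smul_zero]
  rw [smul_add, smul_smul, inv_mul_cancel₀ hc, one_smul] at h2
  exact h2

end Pool.Agent.K3h79.SF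

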